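import Pool.Agent.Lib.MP_1b6faf_co.H8Main
import Pool.Agent.Lib.MP_1b6faf_co.H8Count

/-!
Pairs with a common extremal graph: the answer for almost all pairs.
-/

namespace Pool.Agent.Results.MP_1b6faf_co.AlmostAllPairs

open Pool.Agent.Lib.MP_1b6faf_co Pool.Agent.Lib.MP_1b6faf_co.H8

/-- maximum degree at most `D` and clique number at most `om` -/
def InClass (D om : ℕ) {V : Type} (G : SimpleGraph V) : Prop :=
  (∀ v, (G.neighborSet v).ncard ≤ D) ∧ G.CliqueFree (om + 1)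

/-- number of `t`-cliques per vertex -/
noncomputable def dens (t : ℕ) {V : Type} (G : SimpleGraph V) : ℝ :=
  ((G.cliqueSet t).ncard : ℝ) / (Nat.card V : ℝ)

/-- supremum of the density over all nonempty finite graphs of the class -/
noncomputable def best (t D om : ℕ) : ℝ :=
  sSup {x : ℝ | ∃ (V : Type) (_ : Finite V) (_ : Nonempty V) (G : SimpleGraph V),
    InClass D om G ∧ x = dens t G}

/-- one graph of the class is `t`-extremal for every `t` from `3` to `om` -/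
def Common (D om : ℕ) : Prop :=
  ∃ (V : Type) (_ : Finite V) (_ : Nonempty V) (G : SimpleGraph V),
    InClass D om G ∧ ∀ t, 3 ≤ t → t ≤ om → dens t G = best t D om

lemma best_eq {s k r a : ℕ} (h : UB s k a r) {G : SimpleGraph ℕ} {S : Finset ℕ}
    (hW : Wit s a r G S) (hG : ∀ k, kc G (k + 3) S = rho s k a r * S.card) :
    dens (k + 3) (G.comap (Subtype.val : S → ℕ)) = rho s k a r ∧
      best (k + 3) (s * a + r) (s + 1) = rho s k a r := by
  have hn : (0 : ℝ) < S.card := by exact_mod_cast Finset.card_pos.2 hW.1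
  have h1 : dens (k + 3) (G.comap (Subtype.val : S → ℕ)) = rho s k a r := by
    unfold dens
    rw [dens_restrict, hG, mul_div_cancel_right₀ _ hn.ne']
  refine ⟨h1, IsGreatest.csSup_eq ⟨⟨S, inferInstance, hW.restrict.1, _, hW.restrict.2, h1.symm⟩, ?_⟩⟩
  rintro x ⟨V, _, _, G', hG', rfl⟩
  exact h V G' hG'.1 hG'.2

lemma core (ε : ℝ) (hε : 0 < ε) (hε1 : ε ≤ 1) : ∃ D0 : ℕ, ∀ D : ℕ, D0 ≤ D → ∀ s : ℕ,
    ε * D ≤ s + 1 → s ≤ D → ε * D ≤ |3 * ((D % s : ℕ) : ℝ) * ((D / s : ℕ) + 1) - D| →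
    ((D % s : ℕ) : ℝ) ≤ (1 - ε) * s → (Common D (s + 1) ↔ 3 * (D % s) * (D / s + 1) < D) := by
  choose Q1 h1 using fun a => pos a hε
  choose Q2 h2 using fun a => neg a hε hε1
  obtain ⟨A, hA⟩ := exists_nat_ge (2 / ε)
  obtain ⟨Q, hQ⟩ : ∃ Q, ∀ a ≤ A, Q1 a + Q2 a ≤ Q := ⟨(Finset.range (A + 1)).sup fun a => Q1 a + Q2 a,
    fun a ha => Finset.le_sup (f := fun a => Q1 a + Q2 a) (Finset.mem_range.2 (by omega))⟩
  obtain ⟨D0, h0⟩ := exists_nat_ge ((Q + 3) / ε)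
  rw [div_le_iff₀ hε] at hA h0
  refine ⟨D0, fun D hD s b1 b2 b3 b4 => ?_⟩
  have b5 : (Q : ℝ) + 2 ≤ s := by
    have : (D0 : ℝ) ≤ D := by exact_mod_cast hD
    nlinarith
  have b6 : Q + 2 ≤ s := by exact_mod_cast b5
  have hr : D % s < s := Nat.mod_lt _ (by omega)
  have ha : 1 ≤ D / s := Nat.div_pos b2 (by omega)
  have hDe : D = s * (D / s) + D % s := (Nat.div_add_mod D s).symm
  generalize D / s = a at *
  generalize D % s = r at *
  subst hDe
  push_cast at b1 b3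
  have hs0 : (2 : ℝ) ≤ s := by linarith [Nat.cast_nonneg (α := ℝ) Q]
  have haA : a ≤ A := by
    have : (a : ℝ) ≤ A := by
      by_contra hc
      have c1 : 2 < a * ε := hA.trans_lt (mul_lt_mul_of_pos_right (not_le.1 hc) hε)
      nlinarith [mul_nonneg hε.le (Nat.cast_nonneg (α := ℝ) r)]
    exact_mod_cast this
  have b7 := hQ a haA
  obtain ⟨L, S, hW, hL⟩ := exists_turan s a r hr
  constructor
  · rintro ⟨V, _, _, G, hG, hall⟩
    by_contra hc
    have c1 : (s : ℝ) * a + r ≤ 3 * r * (a + 1) := by exact_mod_cast not_lt.1 hc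
    rw [abs_of_nonneg (by linarith)] at b3
    obtain ⟨⟨k, k1, hU, hE⟩, G', S', hW', hG'⟩ := h2 a s r ha (by omega) b4 (by linarith)
    have c2 := hall (k + 3) (by omega) (by omega)
    rw [(best_eq hU hW hL).2] at c2
    have c3 := hE V G hG.1 hG.2 c2
    have hn : (0 : ℝ) < S'.card := by exact_mod_cast Finset.card_pos.2 hW'.1
    have h3 : dens 3 (G'.comap (Subtype.val : S' → ℕ)) ≤ best 3 (s * a + r) (s + 1) := by
      refine le_csSup ⟨((s * a + r : ℕ) : ℝ) ^ 2, ?_⟩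
        ⟨S', inferInstance, hW'.restrict.1, _, hW'.restrict.2, rfl⟩
      rintro x ⟨V', _, _, G'', hG'', rfl⟩
      exact dens3_le G'' hG''.1
    rw [← hall 3 le_rfl (by omega)] at h3
    unfold dens at h3
    rw [dens_restrict, div_le_iff₀ hn] at h3
    have := mul_le_mul_of_nonneg_right c3 hn.le
    linarith
  · intro hc
    have c1 : 3 * r * (a + 1) < (s : ℝ) * a + r := by exact_mod_cast hc
    rw [abs_of_neg (by linarith)] at b3
    refine ⟨S, inferInstance, hW.restrict.1, _, hW.restrict.2, fun t ht1 ht2 => ?_⟩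
    obtain ⟨k, rfl⟩ : ∃ k, t = k + 3 := ⟨t - 3, by omega⟩
    have hU := h1 a s r k ha (by omega) hr (by omega) (by linarith)
    rw [(best_eq hU hW hL).1, (best_eq hU hW hL).2]

lemma core' (ε : ℝ) (hε : 0 < ε) : ∃ D0 : ℕ, ∀ D : ℕ, D0 ≤ D → ∀ s : ℕ,
    ε * D ≤ s + 1 → s ≤ D → ε * D ≤ |3 * ((D % s : ℕ) : ℝ) * ((D / s : ℕ) + 1) - D| →
    ((D % s : ℕ) : ℝ) ≤ (1 - ε) * s → (Common D (s + 1) ↔ 3 * (D % s) * (D / s + 1) < D) := by
  obtain ⟨D0, h⟩ := core (min ε 1) (lt_min hε zero_lt_one) (min_le_right _ _)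
  have := fun n : ℕ => mul_le_mul_of_nonneg_right (min_le_left ε 1) (Nat.cast_nonneg (α := ℝ) n)
  exact ⟨D0, fun D hD s b1 b2 b3 b4 =>
    h D hD s ((this D).trans b1) b2 ((this D).trans b3) (by linarith [this s])⟩

theorem result : ∀ ε : ℝ, 0 < ε → ∃ D0 : ℕ, ∀ D om : ℕ, D0 ≤ D → 3 ≤ om → om ≤ D + 1 →
    ε * D ≤ om → ε * D ≤ |3 * ((D % (om - 1) : ℕ) : ℝ) * ((D / (om - 1) : ℕ) + 1) - D| →
    ((D % (om - 1) : ℕ) : ℝ) ≤ (1 - ε) * ((om : ℝ) - 1) →
    (Common D om ↔ 3 * (D % (om - 1)) * (D / (om - 1) + 1) < D) := by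
  intro ε hε
  obtain ⟨D0, h0⟩ := core' ε hε
  refine ⟨D0, fun D om hD b1 b2 b3 b4 b5 => ?_⟩
  obtain ⟨s, rfl⟩ : ∃ s, om = s + 1 := ⟨om - 1, by omega⟩
  rw [Nat.add_sub_cancel] at *
  push_cast at b3 b5
  exact h0 D hD s b3 (by omega) b4 (by rwa [add_sub_cancel_right] at b5)

/-- corollary: the rule fails for at most `ε D` clique bounds, and a third of them are common -/
theorem almost_all : ∀ ε : ℝ, 0 < ε → ∃ D0 : ℕ, ∀ D : ℕ, D0 ≤ D →
    (({om | 3 ≤ om ∧ om ≤ D + 1 ∧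
      ¬ (Common D om ↔ 3 * (D % (om - 1)) * (D / (om - 1) + 1) < D)}.ncard : ℝ) ≤ ε * D) ∧
    |({om | 3 ≤ om ∧ om ≤ D + 1 ∧ Common D om}.ncard : ℝ) - D / 3| ≤ ε * D := by
  intro ε hε
  obtain ⟨D1, h1⟩ := count (fun D s => Common D (s + 1)) core' ε hε
  refine ⟨D1, fun D hD => ?_⟩
  rw [ncard_shift, ncard_shift]
  convert h1 D hD using 5
  simp

end Pool.Agent.Results.MP_1b6faf_co.AlmostAllPairs
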